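import Pool.Agent.Helper93_LEW.CRTa

/-!
# CRT: the criterion
-/

set_option autoImplicit false
set_option linter.unusedSectionVars false

open MeasureTheory ProbabilityTheory Function Filter

open scoped ENNReal BigOperators Topology

noncomputable section

namespace Pool.Agent.LE.H93W

open Pool.Agent.Anderson Pool.Agent.Loc Pool.Agent.Mob Pool.Agent.Helper54.Bal
  Pool.Agent.LE.H93C

variable {d : ℕ}

theorem crt (cnt2 : Cnt2Stmt) (trf : TrfStmt) (reg : RegStmt) : CrtStmt := by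
  classical
  intro d s M q σ E κ cs p y hd hσ hs1 hM hdq hcs hκ hp hy hnum hosc hcond
  have hσ0 : 0 < |σ| := abs_pos.2 hσ
  set B : ℝ := |E| + |σ| + 1 / |σ| with hB
  have hB0 : 0 < B := by positivity
  have hpar : Par B σ E := by
    refine ⟨?_, ?_, ?_⟩
    · rw [hB]
      have : 0 < 1 / |σ| := by positivity
      linarith
    · rw [hB]
      have : 0 < 1 / |σ| := by positivity
      have := abs_nonneg E
      linarith
    · have h1 : 1 / |σ| * |σ| = 1 := by field_simp
      have h2 : 0 ≤ (|E| + |σ|) * |σ| := by positivity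
      rw [hB]
      nlinarith only [h1, h2]
  obtain ⟨L₁, hreg⟩ := reg d 4 B (κ / 4) (1 / 8) hd hB0 (by positivity) (by norm_num)
  obtain ⟨n₁, hn₁⟩ := exists_nat_ge (30 * cs / κ)
  refine ⟨max L₁ (max (s * (8 * M + 8)) (s * (n₁ + 1))), ?_⟩
  intro L N a hL0 hbox hins
  have hL1 : L₁ ≤ L := (le_max_left _ _).trans hL0
  have hL2 : s * (8 * M + 8) ≤ L := (le_max_left _ _).trans ((le_max_right _ _).trans hL0)
  have hL3 : s * (n₁ + 1) ≤ L := (le_max_right _ _).trans ((le_max_right _ _).trans hL0)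
  obtain ⟨n, hn⟩ : ∃ n, n = L / s := ⟨_, rfl⟩
  obtain ⟨hsn, hLn, hnM, hsW, hMs⟩ := mesh2 hn hs1 hL2
  have hn1 : n₁ + 1 ≤ n := by
    rw [hn, Nat.le_div_iff_mul_le (by omega), mul_comm]
    exact hL3
  obtain ⟨W, hW⟩ : ∃ W, W = n + 4 * M + 3 := ⟨_, rfl⟩
  obtain ⟨m, hm⟩ : ∃ m, m = ⌊3 * κ * L / (32 * cs * s)⌋₊ := ⟨_, rfl⟩
  have hs0 : (0 : ℝ) < s := by exact_mod_cast (by omega : 0 < s)
  have hcs0 : 0 < cs := by linarith
  have hM0 : (1 : ℝ) ≤ M := by exact_mod_cast hM
  obtain ⟨pt, hpt⟩ : ∃ pt, pt = p + d * (8 * (M * s) + 5) ^ d *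
    (16 / |σ| * Real.exp (-(s / 2 : ℝ))) := ⟨_, rfl⟩
  have hpt0 : 0 < pt := by rw [hpt]; positivity
  obtain ⟨S, hSdef⟩ : ∃ S : Fin d → Finset (Site d), S = fun i => face a s n i := ⟨_, rfl⟩
  have hSn : ∀ i, (S i).Nonempty := fun i => by rw [hSdef]; exact face_nonempty a s n i
  have hkL : ∀ k ∈ box (0 : Site d) n, sd a (a + sm s k) ≤ L := fun k hk =>
    (H28A.sd_sm a s n hk).trans hsn
  have hkW : ∀ k ∈ box (0 : Site d) W, sd a (a + sm s k) ≤ 2 * L := fun k hk =>
    (H28A.sd_sm a s W hk).trans (by rw [hW]; exact hsW)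
  have hSN : ∀ i, S i ⊆ box 0 N := by
    intro i z hz
    rw [hSdef] at hz
    obtain ⟨k, hk, -, rfl⟩ := exists_of_mem_face hz
    apply hbox
    rw [mem_box]
    have := hkL k hk
    omega
  have hd0 : (0 : ℝ) < d := by exact_mod_cast (by omega : 0 < d)
  -- the events
  set A1 : Set (Site d → ℝ) := {V | ¬ RegE V N (3 * L) L a E (κ / 4 * L)} with hA1
  set A2 : Set (Site d → ℝ) := {V | ¬ ∀ x ∈ box a (2 * L), ∀ y ∈ box a (2 * L), L + 1 ≤ sd x y →
    κ * L ≤ DL (box 0 N) E V x y} with hA2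
  obtain ⟨Bk, hBk⟩ : ∃ Bk : Site d → Set (Site d → ℝ), Bk = fun k =>
    toMeasurable (PP d (gl σ)) {V | BadE V N M s E S (a + sm s k)} := ⟨_, rfl⟩
  set T3 : ℝ := 4 * pt * (2 * n + 1) ^ d with hT3
  set A3 : Set (Site d → ℝ) := {V | ENNReal.ofReal T3 ≤ ∑ k ∈ box (0 : Site d) n,
    Set.indicator (Bk k) 1 V} with hA3
  set T4 : ℝ := 4 * (2 * W + 1) ^ d * (d * (y * (cs * s) ^ q)) with hT4
  set A4 : Set (Site d → ℝ) := {V | ENNReal.ofReal T4 ≤ ∑ k ∈ box (0 : Site d) W,
    ∑ i : Fin d, (osc V N E (S i) (a + sm s k) s) ^ q} with hA4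
  have hsL : s ≤ L := by
    have : s * 1 ≤ s * (8 * M + 8) := Nat.mul_le_mul_left _ (by omega)
    omega
  have hL1' : 1 ≤ L := by omega
  have hW1 : box a (3 * L + 1) ⊆ box 0 N := (box_mono a (by omega)).trans hbox
  have p1 : PP d (gl σ) A1 ≤ ENNReal.ofReal (1 / 8) :=
    hreg σ E N (3 * L) L a hpar hL1 (by omega) hW1
  have p2 : PP d (gl σ) A2 ≤ ENNReal.ofReal (1 / 4) := hins
  have hT3pos : 0 < T3 := by positivity
  have hT4pos : 0 < T4 := by positivity
  have p3 : PP d (gl σ) A3 ≤ ENNReal.ofReal (1 / 4) := by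
    refine markov_sum (c := ENNReal.ofReal pt) (box (0 : Site d) n) (fun k _ => ?_)
      (fun k hk => ?_) ?_ ENNReal.ofReal_ne_top ?_
    · rw [hBk]
      exact measurable_one.indicator (measurableSet_toMeasurable _ _)
    · rw [hBk, lintegral_indicator_one (measurableSet_toMeasurable _ _), measure_toMeasurable, hpt]
      have hsub : box (a + sm s k) (4 * (M * s) + 2) ⊆ box 0 N := by
        refine Finset.Subset.trans (fun z hz => ?_) hbox
        rw [mem_box] at hz ⊢
        have h1 := hkL k hk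
        have h2 := sd_triangle a (a + sm s k) z
        omega
      exact prob_BadE trf hd hσ hp.le hSn hSN hsub (hcond N _ hsub)
    · rw [Ne, ENNReal.ofReal_eq_zero, not_le]
      exact hT3pos
    · rw [card_box, ← ENNReal.ofReal_natCast, ← ENNReal.ofReal_mul (by positivity)]
      have e : (4 : ℝ≥0∞) = ENNReal.ofReal 4 := by simp
      rw [e, ← ENNReal.ofReal_mul (by norm_num)]
      apply ENNReal.ofReal_le_ofReal
      rw [hT3]
      push_cast
      exact le_of_eq (by ring)
  have hmo : ∀ k, Measurable fun V : Site d → ℝ =>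
      ∑ i : Fin d, (osc V N E (S i) (a + sm s k) s) ^ q := fun k =>
    Finset.measurable_sum _ fun i _ => (measurable_osc N E (S i) (a + sm s k) s).pow_const q
  have p4 : PP d (gl σ) A4 ≤ ENNReal.ofReal (1 / 4) := by
    refine markov_sum (c := ENNReal.ofReal (d * (y * (cs * s) ^ q))) (box (0 : Site d) W)
      (fun k _ => hmo k) (fun k hk => ?_) ?_ ENNReal.ofReal_ne_top ?_
    · have hsub : box (a + sm s k) s ⊆ box 0 N := by
        refine Finset.Subset.trans (fun z hz => ?_) hbox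
        rw [mem_box] at hz ⊢
        have h1 := hkW k hk
        have h2 := sd_triangle a (a + sm s k) z
        omega
      rw [lintegral_finsetSum _ (fun i _ =>
        (measurable_osc N E (S i) (a + sm s k) s).pow_const q)]
      refine (Finset.sum_le_sum fun i _ => hosc N (S i) (a + sm s k) (hSn i) (hSN i) hsub).trans
        (le_of_eq ?_)
      rw [Finset.sum_const, Finset.card_univ, Fintype.card_fin, nsmul_eq_mul,
        ← ENNReal.ofReal_natCast, ← ENNReal.ofReal_mul (by positivity)]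
    · rw [Ne, ENNReal.ofReal_eq_zero, not_le]
      exact hT4pos
    · rw [card_box, ← ENNReal.ofReal_natCast, ← ENNReal.ofReal_mul (by positivity)]
      have e : (4 : ℝ≥0∞) = ENNReal.ofReal 4 := by simp
      rw [e, ← ENNReal.ofReal_mul (by norm_num)]
      apply ENNReal.ofReal_le_ofReal
      rw [hT4]
      push_cast
      linarith
  obtain ⟨V, hV⟩ : ∃ V, V ∉ (A1 ∪ A2) ∪ (A3 ∪ A4) := by
    by_contra hcon
    push Not at hcon
    have h1 : (A1 ∪ A2) ∪ (A3 ∪ A4) = Set.univ := Set.eq_univ_of_forall hcon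
    have h2 : PP d (gl σ) ((A1 ∪ A2) ∪ (A3 ∪ A4)) ≤ ENNReal.ofReal (7 / 8) := by
      calc PP d (gl σ) ((A1 ∪ A2) ∪ (A3 ∪ A4))
          ≤ (PP d (gl σ) A1 + PP d (gl σ) A2) + (PP d (gl σ) A3 + PP d (gl σ) A4) :=
            (measure_union_le _ _).trans (add_le_add (measure_union_le _ _)
              (measure_union_le _ _))
        _ ≤ (ENNReal.ofReal (1 / 8) + ENNReal.ofReal (1 / 4)) +
            (ENNReal.ofReal (1 / 4) + ENNReal.ofReal (1 / 4)) :=
            add_le_add (add_le_add p1 p2) (add_le_add p3 p4)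
        _ = _ := by
            rw [← ENNReal.ofReal_add (by norm_num) (by norm_num),
              ← ENNReal.ofReal_add (by norm_num) (by norm_num),
              ← ENNReal.ofReal_add (by norm_num) (by norm_num)]
            norm_num
    rw [h1, measure_univ] at h2
    have h3 : ENNReal.ofReal (7 / 8) < 1 := by
      rw [ENNReal.ofReal_lt_one]
      norm_num
    exact absurd h2 (not_le.2 h3)
  simp only [Set.mem_union, not_or] at hV
  obtain ⟨⟨hV1, hV2⟩, hV3, hV4⟩ := hV
  rw [hA1, Set.mem_ofPred_eq, not_not] at hV1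
  rw [hA2, Set.mem_ofPred_eq, not_not] at hV2
  rw [hA3, Set.mem_ofPred_eq, not_le] at hV3
  rw [hA4, Set.mem_ofPred_eq, not_le] at hV4
  obtain ⟨r1, r2, r3, r4, r5⟩ := hV1
  set G : Finset (Site d) := (box (0 : Site d) n).filter fun k => V ∉ Bk k with hG
  obtain ⟨O, hO⟩ : ∃ O : Site d → Fin d → ℝ, O = fun k i =>
    (osc V N E (S i) (a + sm s k) s).toReal := ⟨_, rfl⟩
  have hO0 : ∀ k i, 0 ≤ O k i := fun k i => by rw [hO]; exact ENNReal.toReal_nonneg
  haveI : Nonempty (Fin d) := ⟨⟨0, by omega⟩⟩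
  obtain ⟨c, hc⟩ : ∃ c : Site d → ℝ, c = fun k =>
    (Finset.univ.sup' Finset.univ_nonempty (O k)) / s := ⟨_, rfl⟩
  have hc0 : ∀ k, 0 ≤ c k := fun k => by
    rw [hc]
    refine div_nonneg ?_ hs0.le
    exact (hO0 k _).trans (Finset.le_sup' (O k) (Finset.mem_univ ⟨0, by omega⟩))
  -- the two counts
  have hcardG : (((box (0 : Site d) n) \ G).card : ℝ) ≤ T3 := by
    have h1 : (box (0 : Site d) n) \ G = (box (0 : Site d) n).filter fun k => V ∈ Bk k := by
      ext k
      rw [hG, Finset.mem_sdiff, Finset.mem_filter, Finset.mem_filter]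
      constructor
      · rintro ⟨q1, q2⟩
        exact ⟨q1, by_contra fun q3 => q2 ⟨q1, q3⟩⟩
      · rintro ⟨q1, q2⟩
        exact ⟨q1, fun q3 => q3.2 q2⟩
    have h2 := indicator_sum_card (box (0 : Site d) n) Bk V
    rw [h2] at hV3
    have h3 := hV3.le
    rw [← ENNReal.ofReal_natCast] at h3
    rw [h1]
    exact (ENNReal.ofReal_le_ofReal_iff hT3pos.le).1 h3
  have hsum : ∑ k ∈ box (0 : Site d) W, (c k / cs) ^ q ≤ 4 * (2 * W + 1) ^ d * (d * y) := by
    have h1 : ∑ k ∈ box (0 : Site d) W, ∑ i : Fin d, O k i ^ q ≤ T4 := by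
      have h2 := ENNReal.toReal_mono ENNReal.ofReal_ne_top hV4.le
      have hne : ∀ k i, (osc V N E (S i) (a + sm s k) s) ^ q ≠ ∞ := fun k i =>
        ENNReal.pow_ne_top (osc_ne_top V N E _ _ s)
      rw [ENNReal.toReal_ofReal hT4pos.le, ENNReal.toReal_sum
        (fun k _ => ENNReal.sum_ne_top.2 fun i _ => hne k i)] at h2
      refine le_trans (le_of_eq ?_) h2
      refine Finset.sum_congr rfl fun k _ => ?_
      rw [ENNReal.toReal_sum (fun i _ => hne k i)]
      refine Finset.sum_congr rfl fun i _ => ?_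
      rw [ENNReal.toReal_pow, hO]
    have h2 : ∑ k ∈ box (0 : Site d) W, (c k / cs) ^ q ≤
        (∑ k ∈ box (0 : Site d) W, ∑ i : Fin d, O k i ^ q) * (1 / (s * cs)) ^ q := by
      rw [Finset.sum_mul]
      refine Finset.sum_le_sum fun k _ => ?_
      obtain ⟨i, -, hi⟩ := Finset.exists_mem_eq_sup' (Finset.univ_nonempty (α := Fin d)) (O k)
      have e : c k / cs = O k i * (1 / (s * cs)) := by
        rw [hc]
        simp only
        rw [hi]
        field_simp
      rw [e, mul_pow]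
      refine mul_le_mul_of_nonneg_right ?_ (by positivity)
      exact Finset.single_le_sum (f := fun i => O k i ^ q)
        (fun j _ => pow_nonneg (hO0 k j) q) (Finset.mem_univ i)
    refine h2.trans ((mul_le_mul_of_nonneg_right h1 (by positivity)).trans (le_of_eq ?_))
    rw [hT4]
    have e : (cs * (s : ℝ)) ^ q * (1 / (s * cs)) ^ q = 1 := by
      rw [← mul_pow]
      have : cs * (s : ℝ) * (1 / (s * cs)) = 1 := by field_simp
      rw [this, one_pow]
    calc 4 * (2 * (W : ℝ) + 1) ^ d * (d * (y * (cs * s) ^ q)) * (1 / (s * cs)) ^ q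
        = 4 * (2 * (W : ℝ) + 1) ^ d * (d * y) * ((cs * (s : ℝ)) ^ q * (1 / (s * cs)) ^ q) := by ring
      _ = _ := by rw [e, mul_one]
  -- the counting lemma
  have key := cnt2 d (fun x i => FD V (box 0 N) E (S i) x) a s n M m q (κ / 4 * L) (κ * L) cs c G
    hd hs1 (by omega) hM hdq hcs ?_ ?_ ?_ hc0 ?_ ?_
  · -- the contradiction
    rw [← hW] at key
    have hnR : (1 : ℝ) ≤ n := by exact_mod_cast (by omega : 1 ≤ n)
    have hWn' : 2 * (W : ℝ) + 1 ≤ 3 * n := by
      have : 2 * W + 1 ≤ 3 * n := by omega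
      exact_mod_cast this
    have h1 : T3 ≤ 4 * pt * 3 ^ d * (n : ℝ) ^ d := by
      rw [hT3, mul_assoc (4 * pt), ← mul_pow]
      have : (2 * (n : ℝ) + 1) ^ d ≤ (3 * n) ^ d := pow_le_pow_left₀ (by positivity) (by linarith) d
      exact mul_le_mul_of_nonneg_left this (by positivity)
    have h2 : (2 * (W : ℝ) + 1) ^ d ≤ 3 ^ d * (n : ℝ) ^ d := by
      rw [← mul_pow]
      exact pow_le_pow_left₀ (by positivity) hWn' d
    have h2' : (2 * ((n : ℝ) + 4 * M + 3) + 1) ^ d ≤ 3 ^ d * (n : ℝ) ^ d := by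
      have : (2 * ((n : ℝ) + 4 * M + 3) + 1) = 2 * (W : ℝ) + 1 := by
        rw [hW]; push_cast; ring
      rw [this]
      exact h2
    have h3 : (κ / (17 * cs)) * n ≤ m := by
      have h4 : 3 * κ * L / (32 * cs * s) < m + 1 := by rw [hm]; exact Nat.lt_floor_add_one _
      have h5 : 3 * κ * n / (32 * cs) ≤ 3 * κ * L / (32 * cs * s) := by
        rw [div_le_div_iff₀ (by positivity) (by positivity)]
        have : (s : ℝ) * n ≤ L := by exact_mod_cast hsn
        have h6 : 3 * κ * n * (32 * cs * s) = (32 * cs * (3 * κ)) * (s * n) := by ring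
        have h7 : 3 * κ * L * (32 * cs) = (32 * cs * (3 * κ)) * L := by ring
        rw [h6, h7]
        exact mul_le_mul_of_nonneg_left this (by positivity)
      have h8 : 30 ≤ κ / cs * n := by
        rw [div_mul_eq_mul_div, le_div_iff₀ (by positivity)]
        rw [div_le_iff₀ hκ] at hn₁
        have h9 : (n₁ : ℝ) + 1 ≤ n := by exact_mod_cast hn1
        have h9' := mul_le_mul_of_nonneg_left h9 hκ.le
        linarith only [hn₁, h9', hκ]
      have h10 : 3 * κ * n / (32 * cs) = 3 / 32 * (κ / cs * n) := by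
        field_simp
      have h11 : κ / (17 * cs) * n = 1 / 17 * (κ / cs * n) := by
        field_simp
      rw [h11]
      rw [h10] at h5
      linarith
    have h4 : (κ / (17 * cs)) ^ d * (n : ℝ) ^ d ≤ (m : ℝ) ^ d := by
      rw [← mul_pow]
      exact pow_le_pow_left₀ (by positivity) h3 d
    have hn0 : (0 : ℝ) < (n : ℝ) ^ d := by positivity
    have h5 : 4 * (2 * (W : ℝ) + 1) ^ d * (d * y) ≤
        (4 * 3 ^ d * (d * y)) * (n : ℝ) ^ d := by
      calc 4 * (2 * (W : ℝ) + 1) ^ d * (d * y) = (4 * (d * y)) * (2 * (W : ℝ) + 1) ^ d := by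
            ring
        _ ≤ (4 * (d * y)) * (3 ^ d * (n : ℝ) ^ d) :=
            mul_le_mul_of_nonneg_left h2 (by positivity)
        _ = _ := by ring
    have h6 : (m : ℝ) ^ d ≤ 4 * pt * 3 ^ d * (n : ℝ) ^ d + 2 * (3 ^ d * (n : ℝ) ^ d) / M +
        (2 ^ d + 2 * (8 * M + 9) ^ d / M) * ((4 * 3 ^ d * (d * y)) * (n : ℝ) ^ d) := by
      refine key.trans (add_le_add (add_le_add (hcardG.trans h1) ?_) ?_)
      · gcongr
      · refine mul_le_mul_of_nonneg_left (hsum.trans h5) (by positivity)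
    have h7 : 4 * pt * 3 ^ d * (n : ℝ) ^ d + 2 * (3 ^ d * (n : ℝ) ^ d) / M +
        (2 ^ d + 2 * (8 * M + 9) ^ d / M) * ((4 * 3 ^ d * (d * y)) * (n : ℝ) ^ d) =
        (4 * pt * 3 ^ d + 2 * 3 ^ d / M +
        (2 ^ d + 2 * (8 * M + 9) ^ d / M) * (4 * 3 ^ d * (d * y))) * (n : ℝ) ^ d := by
      ring
    rw [h7] at h6
    rw [← hpt] at hnum
    have h8 := mul_lt_mul_of_pos_right hnum hn0
    linarith
  · -- t + 8 cs s m ≤ κ L
    have h1 : (m : ℝ) ≤ 3 * κ * L / (32 * cs * s) := by rw [hm]; exact Nat.floor_le (by positivity)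
    rw [le_div_iff₀ (by positivity)] at h1
    linarith
  · intro k hk i hi
    have hmem : a + sm s k ∈ box a (3 * L) := by
      rw [mem_box]
      have := hkL k hk
      omega
    refine (FD_le (z := a + sm s k) ?_ (r2 _ hmem _ hmem).1).trans (r4 _ hmem)
    rw [hSdef]
    exact mem_face hk hi
  · intro k hk i hi
    refine le_FD (hSn i) fun z hz => ?_
    rw [hSdef] at hz
    obtain ⟨k', hk', hi', rfl⟩ := exists_of_mem_face hz
    refine hV2 _ ?_ _ ?_ ?_
    · rw [mem_box]
      have := hkL k' hk'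
      omega
    · rw [mem_box]
      have := hkL k hk
      omega
    · have h1 := abs_le_sd (a + sm s k') (a + sm s k) i
      rw [sm_sub_apply, sm_sub_apply, hi, hi'] at h1
      have h2 : a i + (s : ℤ) * -(n : ℤ) - (a i + (s : ℤ) * (n : ℤ)) = -(2 * ((s : ℤ) * n)) := by ring
      rw [h2, abs_neg, abs_of_nonneg (by positivity)] at h1
      have h3 : 2 * (s * n) ≤ sd (a + sm s k') (a + sm s k) := by exact_mod_cast h1
      have h4 : s * (n + 1) ≤ 2 * (s * n) := by
        have : s ≤ s * n := Nat.le_mul_of_pos_right s (by omega)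
        have e : s * (n + 1) = s * n + s := by ring
        omega
      omega
  · intro k hk x hx i
    refine (le_osc V N E (S i) hx).trans ?_
    have h1 : O k i ≤ Finset.univ.sup' Finset.univ_nonempty (O k) :=
      Finset.le_sup' (O k) (Finset.mem_univ i)
    rw [hc]
    simp only
    rw [div_mul_cancel₀ _ hs0.ne']
    rw [hO] at h1 ⊢
    exact h1
  · intro k hk
    rw [hG, Finset.mem_filter] at hk
    refine good_of_not_bad fun hbad => hk.2 ?_
    rw [hBk]
    exact subset_toMeasurable _ _ hbad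

end Pool.Agent.LE.H93W
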