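import Pool.Agent.LE.StmtsX
import Pool.Agent.Helper54_BED.Flat

/-!
# WBE: the Lyapunov exponent near the band edge
-/

set_option autoImplicit false

open MeasureTheory ProbabilityTheory Function Filter

open scoped ENNReal BigOperators Topology

noncomputable section

namespace Pool.Agent.LE.H93W

open Pool.Agent.Anderson Pool.Agent.Loc Pool.Agent.Mob Pool.Agent.Helper54.Bal Pool.Agent.BED

/-- the failure probability is at most `t ^ (-2)` -/
theorem p_le {d : ℕ} {c0 C0 c σ t : ℝ} {M' : ℕ} (hd : 3 ≤ d) (hc0 : 0 < c0) (hC0 : 0 < C0)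
    (hc : 0 < c) (hσ : σ ≠ 0) (ht : 11 ≤ t) (hcc : c * (d + 5) ≤ c0)
    (hM' : (M' : ℝ) ≤ 3 * t) (hu : σ ^ 2 * growth d t * Real.log t ≤ c)
    (htC : C0 * 3 ^ d ≤ t ^ 2) :
    C0 * (1 + Real.log t) * (M' : ℝ) ^ d * Real.exp (-c0 / (σ ^ 2 * growth d t)) ≤
      1 / t ^ 2 := by
  have ht0 : 0 < t := by linarith
  have hgr := one_le_growth d (by linarith : (1 : ℝ) ≤ t)
  have hσ2 : 0 < σ ^ 2 := by positivity
  have hu0 : 0 < σ ^ 2 * growth d t := by positivity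
  have hlog : 0 ≤ Real.log t := Real.log_nonneg (by linarith)
  have h1 : (d + 5 : ℝ) * Real.log t ≤ c0 / (σ ^ 2 * growth d t) := by
    rw [le_div_iff₀ hu0]
    calc (d + 5 : ℝ) * Real.log t * (σ ^ 2 * growth d t) =
          (σ ^ 2 * growth d t * Real.log t) * (d + 5) := by ring
      _ ≤ c * (d + 5) := mul_le_mul_of_nonneg_right hu (by positivity)
      _ ≤ c0 := hcc
  have h2 : Real.exp (-c0 / (σ ^ 2 * growth d t)) ≤ 1 / t ^ (d + 5) := by
    have h3 : Real.exp (-c0 / (σ ^ 2 * growth d t)) ≤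
        Real.exp (-((d + 5 : ℝ) * Real.log t)) := by
      apply Real.exp_le_exp.2
      rw [neg_div]
      linarith
    refine h3.trans (le_of_eq ?_)
    rw [Real.exp_neg, one_div]
    congr 1
    have : (d + 5 : ℝ) * Real.log t = ((d + 5 : ℕ) : ℝ) * Real.log t := by push_cast; ring
    rw [this, Real.exp_nat_mul, Real.exp_log ht0]
  have h3 : 1 + Real.log t ≤ t := by
    have := Real.log_le_sub_one_of_pos ht0
    linarith
  have h4 : (M' : ℝ) ^ d ≤ 3 ^ d * t ^ d := by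
    rw [← mul_pow]
    exact pow_le_pow_left₀ (Nat.cast_nonneg _) hM' d
  calc C0 * (1 + Real.log t) * (M' : ℝ) ^ d * Real.exp (-c0 / (σ ^ 2 * growth d t))
      ≤ C0 * t * (3 ^ d * t ^ d) * (1 / t ^ (d + 5)) := by gcongr
    _ = (C0 * 3 ^ d) / t ^ 4 := by
        field_simp
        ring
    _ ≤ t ^ 2 / t ^ 4 := by gcongr
    _ = _ := by
        field_simp

/-- the core: `z` is any energy at which the cubes conduct -/
theorem wbeZ (crt : CrtStmt) (osc : OscBStmt) (nux : NuxStmt) (inf : InfStmt) {d : ℕ}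
    (hd : 1 ≤ d) {C1 : ℝ} (hC1 : 1 ≤ C1) :
    ∃ c C : ℝ, 0 < c ∧ c ≤ 1 / 4 ∧ 0 < C ∧ ∀ (M' : ℕ) (σ t p z : ℝ), σ ≠ 0 → |σ| ≤ c →
      1 / |σ| ≤ t → t + 2 ≤ M' → 0 < p → p ≤ 1 / t → |z| ≤ 2 * d + 1 →
      (∀ (s M N : ℕ) (E lam : ℝ) (c : Site d), |E - z| ≤ lam →
        C1 * lam * (8 * (M * s) + 3 : ℝ) ^ d ≤ 1 → C1 * (8 * (M * s) + 3 : ℝ) ^ d ≤ t →
        8 * (M * s) + 5 ≤ M' → Real.log (16 * d * (8 * (M * s) + 3 : ℝ) ^ d) ≤ s / 2 →
        box c (4 * (M * s) + 2) ⊆ box 0 N →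
          PP d (gl σ) {V | ¬ ∀ j : ℕ, 1 ≤ j → j ≤ M → ∃ y : Site d,
            (sd c y = 4 * j * s ∨ sd c y = 4 * j * s + 1) ∧ DL (box 0 N) E V c y ≤ s / 2} ≤
              ENNReal.ofReal p) →
      ∀ E g : ℝ, |E - z| ≤ |σ| → LyaAt d σ E g → g ≤ C * (|E - z| + 1 / t) ^ c := by
  have hdR : (0 : ℝ) < d := by exact_mod_cast (by omega : 0 < d)
  obtain ⟨A, hA, hosc⟩ := osc d (2 * d + 2) hd (by positivity)
  obtain ⟨q, cN, hdq, hcN, hN⟩ := nux d A C1 hd hA hC1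
  obtain ⟨C', hC', hosc'⟩ := hosc q
  obtain ⟨CN, hCN, hNN⟩ := hN C' hC'
  obtain ⟨c, hcdef⟩ : ∃ c : ℝ, c = min cN (1 / (4 * CN)) := ⟨_, rfl⟩
  have hc : 0 < c := by rw [hcdef]; positivity
  have hc1 : c ≤ cN := by rw [hcdef]; exact min_le_left _ _
  have hc3 : 4 * CN * c ≤ 1 := by
    have : c ≤ 1 / (4 * CN) := by rw [hcdef]; exact min_le_right _ _
    rw [le_div_iff₀ (by positivity)] at this
    linarith
  have hc6 : c ≤ 1 / 4 := by
    have : 1 * c ≤ CN * c := mul_le_mul_of_nonneg_right hCN hc.le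
    linarith
  refine ⟨c, 2 * CN, hc, hc6, by positivity, ?_⟩
  intro M' σ t p z hσ hσc hσt hM' hp0 hpt hz hcond E g hE hg
  have hσ0 : 0 < |σ| := abs_pos.2 hσ
  have hσ1 : |σ| ≤ 1 := by linarith
  have ht0 : 0 < t := lt_of_lt_of_le (by positivity) hσt
  have h1t : 1 / t ≤ |σ| := by
    rw [div_le_iff₀ ht0]
    rw [div_le_iff₀ hσ0] at hσt
    linarith
  obtain ⟨lam, hlam⟩ : ∃ lam : ℝ, lam = |E - z| + 1 / t := ⟨_, rfl⟩
  rw [← hlam]
  have h1t0 : 0 < 1 / t := by positivity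
  have hEz := abs_nonneg (E - z)
  have hlam0 : 0 < lam := by rw [hlam]; linarith
  have hlam2 : lam ≤ 2 * |σ| := by rw [hlam]; linarith
  have hlamt : 1 / t ≤ lam := by rw [hlam]; linarith
  have hlam1 : lam ≤ 1 := by linarith
  have hzE : |E| ≤ 2 * d + 2 := by
    have h3 : |E| ≤ |E - z| + |z| := by
      have := abs_add_le (E - z) z
      rwa [sub_add_cancel] at this
    linarith
  obtain ⟨X, hX⟩ : ∃ X : ℝ, X = 1 / lam := ⟨_, rfl⟩
  have hX0 : 0 < X := by rw [hX]; positivity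
  have hXl : 1 / X = lam := by rw [hX, one_div_one_div]
  have hXC : CN ≤ X := by
    rw [hX, le_div_iff₀ hlam0]
    have : CN * lam ≤ CN * (2 * c) := mul_le_mul_of_nonneg_left (by linarith) (by linarith)
    linarith
  have hXσ : 1 / |σ| ≤ 2 * X := by
    rw [hX, div_le_iff₀ hσ0]
    have : 2 * (1 / lam) * |σ| = 2 * |σ| / lam := by ring
    rw [this, le_div_iff₀ hlam0, one_mul]
    exact hlam2
  have hXt : X ≤ t := by
    rw [hX, div_le_iff₀ hlam0]
    rw [div_le_iff₀ ht0] at hlamt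
    linarith
  by_contra hcon
  push Not at hcon
  obtain ⟨κ, hκ⟩ : ∃ κ : ℝ, κ = CN * X ^ (-cN) := ⟨_, rfl⟩
  have hXp : X ^ (-cN) = lam ^ cN := by
    rw [← hXl, one_div, Real.inv_rpow hX0.le, Real.rpow_neg hX0.le]
  have hκ0 : 0 < κ := by
    rw [hκ]
    have : 0 < X ^ (-cN) := Real.rpow_pos_of_pos hX0 _
    positivity
  have hκg : 2 * κ < g := by
    refine lt_of_le_of_lt ?_ hcon
    rw [hκ, hXp]
    have h1 : lam ^ cN ≤ lam ^ c := Real.rpow_le_rpow_of_exponent_ge hlam0 hlam1 hc1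
    have h3 : CN * lam ^ cN ≤ CN * lam ^ c := mul_le_mul_of_nonneg_left h1 (by linarith)
    linarith
  obtain ⟨s, M, cs, hs, hM, hcs, hr1, hr2, hr3, hr4⟩ := hNN σ κ X p hσ hσ1 hXC hXσ hp0
    (by rw [hXl]; exact hpt.trans hlamt) (by rw [hκ])
  have hs0 : (0 : ℝ) < s := by exact_mod_cast (by omega : 0 < s)
  have hcs0 : 0 < cs := by linarith
  have hy0 : 0 < C' * |σ| ^ (-A) * (s : ℝ) ^ (q + d + 1) / (cs * s) ^ q := by
    have : 0 < |σ| ^ (-A) := Real.rpow_pos_of_pos hσ0 _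
    positivity
  obtain ⟨L₀, hL₀⟩ := crt d s M q σ E κ cs p
    (C' * |σ| ^ (-A) * (s : ℝ) ^ (q + d + 1) / (cs * s) ^ q) hd hσ hs hM hdq hcs hκ0
    hp0 hy0 hr4
    (fun N S c hS hSN hc => by
      refine (hosc' σ E N s S c hσ hσ1 hzE hs hS hSN hc).trans (ENNReal.ofReal_le_ofReal ?_)
      rw [div_mul_cancel₀ _ (by positivity)])
    (fun N c hc => by
      refine hcond s M N E lam c (by rw [hlam]; linarith) ?_ (hr1.trans hXt) ?_ hr3 hc
      · have h1 : C1 * lam * (8 * (M * s) + 3 : ℝ) ^ d =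
            lam * (C1 * (8 * (M * s) + 3 : ℝ) ^ d) := by ring
        rw [h1]
        calc lam * (C1 * (8 * (M * s) + 3 : ℝ) ^ d) ≤ lam * X :=
              mul_le_mul_of_nonneg_left hr1 hlam0.le
          _ = 1 := by rw [hX]; field_simp
      · have h1 : ((8 * (M * s) + 5 : ℕ) : ℝ) ≤ (M' : ℕ) := by
          push_cast
          linarith
        exact_mod_cast h1)
  obtain ⟨L, N, a, hL, hbox, hP⟩ := inf d σ E g (2 * κ) hd hσ hg (by linarith) hκg L₀
  refine hL₀ L N a hL hbox ?_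
  have e : 2 * κ / 2 = κ := by ring
  rw [e] at hP
  exact hP

theorem wbe (crt : CrtStmt) (osc : OscBStmt) (cpf : CpfStmt) (nux : NuxStmt) (inf : InfStmt) :
    WbeStmt := by
  intro d hd3
  have hd : 1 ≤ d := by omega
  have hdR : (0 : ℝ) < d := by exact_mod_cast (by omega : 0 < d)
  obtain ⟨c0, C0, C1, hc0, hC0, hC1, hcpf⟩ := cpf d hd3
  obtain ⟨cN, CN, hcN, hcN4, hCN, hcore⟩ := wbeZ crt osc nux inf hd hC1
  obtain ⟨c, hcdef⟩ : ∃ c : ℝ, c = min (min cN (c0 / (d + 5)))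
    (min (1 / (C0 * 3 ^ d + 12)) (1 / (4 * C0 + 1))) := ⟨_, rfl⟩
  have hc : 0 < c := by rw [hcdef]; positivity
  have hc1 : c ≤ cN := by
    rw [hcdef]; exact (min_le_left _ _).trans (min_le_left _ _)
  have hc2 : c * (d + 5) ≤ c0 := by
    have : c ≤ c0 / (d + 5) := by
      rw [hcdef]; exact (min_le_left _ _).trans (min_le_right _ _)
    rwa [le_div_iff₀ (by positivity)] at this
  have hc4 : (C0 * 3 ^ d + 12) * c ≤ 1 := by
    have : c ≤ 1 / (C0 * 3 ^ d + 12) := by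
      rw [hcdef]; exact (min_le_right _ _).trans (min_le_left _ _)
    rw [le_div_iff₀ (by positivity)] at this
    linarith
  have hc5 : (4 * C0 + 1) * c ≤ 1 := by
    have : c ≤ 1 / (4 * C0 + 1) := by
      rw [hcdef]; exact (min_le_right _ _).trans (min_le_right _ _)
    rw [le_div_iff₀ (by positivity)] at this
    linarith
  have hc6 : c ≤ 1 / 4 := hc1.trans hcN4
  refine ⟨c, 2 * C0 + CN, hc, by positivity, ?_⟩
  intro σ t hσ hσc hσt hu
  have hσ0 : 0 < |σ| := abs_pos.2 hσ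
  have hσ1 : |σ| ≤ 1 := by linarith
  have ht1c : 1 / c ≤ t := (one_div_le_one_div_of_le hσ0 hσc).trans hσt
  have hct : 1 ≤ c * t := by
    rw [div_le_iff₀ hc] at ht1c
    linarith
  have ht0 : 0 < t := lt_of_lt_of_le (by positivity) hσt
  have htb : C0 * 3 ^ d + 12 ≤ t := by
    have h1 : (C0 * 3 ^ d + 12) * (c * t) ≤ 1 * t := by
      rw [← mul_assoc]
      exact mul_le_mul_of_nonneg_right hc4 ht0.le
    have h2 : (C0 * 3 ^ d + 12) * 1 ≤ (C0 * 3 ^ d + 12) * (c * t) :=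
      mul_le_mul_of_nonneg_left hct (by positivity)
    linarith
  have hC3 : 0 < C0 * 3 ^ d := by positivity
  have ht12 : 12 ≤ t := by linarith
  have htt : t * 12 ≤ t * t := mul_le_mul_of_nonneg_left ht12 ht0.le
  obtain ⟨M', hM'⟩ : ∃ M' : ℕ, M' = ⌈t⌉₊ + 10 := ⟨_, rfl⟩
  have hM1 : t + 2 ≤ M' := by
    rw [hM']
    push_cast
    have := Nat.le_ceil t
    linarith
  have hM2 : (M' : ℝ) ≤ 3 * t := by
    rw [hM']
    push_cast
    have := Nat.ceil_lt_add_one ht0.le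
    linarith
  obtain ⟨p, hp⟩ : ∃ p : ℝ, p = C0 * (1 + Real.log t) * (M' : ℝ) ^ d *
    Real.exp (-c0 / (σ ^ 2 * growth d t)) := ⟨_, rfl⟩
  have hM0 : (0 : ℝ) < M' := by linarith
  have hlog : 0 ≤ Real.log t := Real.log_nonneg (by linarith)
  have hp0 : 0 < p := by rw [hp]; positivity
  have hpt : p ≤ 1 / t ^ 2 := by
    rw [hp]
    refine p_le hd3 hc0 hC0 hc hσ (by linarith) hc2 hM2 hu ?_
    rw [pow_two]
    linarith
  have hpt1 : p ≤ 1 / t := by
    refine hpt.trans (one_div_le_one_div_of_le ht0 ?_)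
    rw [pow_two]
    linarith
  have hp2 : p ≤ 1 / 2 := hpt1.trans (one_div_le_one_div_of_le (by norm_num) (by linarith))
  have hsq : Real.sqrt p ≤ 1 / t := by
    rw [Real.sqrt_le_left (by positivity)]
    refine hpt.trans (le_of_eq ?_)
    rw [div_pow, one_pow]
  have hM3 : 3 ≤ M' := by omega
  obtain ⟨z, hz, hcond⟩ := hcpf M' σ t p hσ hσ1 hM3 (by linarith) (by linarith) hp hp2
  have h1t : 1 / t ≤ |σ| := by
    rw [div_le_iff₀ ht0]
    rw [div_le_iff₀ hσ0] at hσt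
    linarith
  have hσsq : σ ^ 2 ≤ |σ| := by
    rw [← sq_abs, pow_two]
    have := mul_le_mul_of_nonneg_left hσ1 hσ0.le
    linarith
  have hσsq0 := sq_nonneg σ
  have h1t0 : 0 < 1 / t := by positivity
  have hz2 : |z - 2 * d| ≤ 2 * C0 * (σ ^ 2 + 1 / t) := by
    refine hz.trans ?_
    have h1 : σ ^ 2 + 1 / t + Real.sqrt p ≤ 2 * (σ ^ 2 + 1 / t) := by linarith
    have := mul_le_mul_of_nonneg_left h1 hC0.le
    linarith
  have hz1 : |z| ≤ 2 * d + 1 := by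
    have h1 : |z - 2 * d| ≤ 1 := by
      refine hz2.trans ?_
      have h3 : σ ^ 2 + 1 / t ≤ 2 * c := by linarith
      calc 2 * C0 * (σ ^ 2 + 1 / t) ≤ 2 * C0 * (2 * c) :=
            mul_le_mul_of_nonneg_left h3 (by positivity)
        _ ≤ 1 := by linarith
    have h2 := abs_add_le (z - 2 * d) (2 * d)
    rw [sub_add_cancel, abs_of_nonneg (by positivity : (0 : ℝ) ≤ 2 * d)] at h2
    linarith
  refine ⟨z, ?_, ?_⟩
  · refine hz2.trans ?_
    have h0 : 0 ≤ σ ^ 2 + 1 / t := by positivity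
    exact mul_le_mul_of_nonneg_right (by linarith) h0
  intro E g hE hg
  refine (hcore M' σ t p z hσ (hσc.trans hc1) hσt hM1 hp0 hpt1 hz1 hcond E g hE hg).trans ?_
  have hb0 : 0 < |E - z| + 1 / t := by
    have := abs_nonneg (E - z)
    linarith
  have hb1 : |E - z| + 1 / t ≤ 1 := by linarith
  have h1 : (|E - z| + 1 / t) ^ cN ≤ (|E - z| + 1 / t) ^ c :=
    Real.rpow_le_rpow_of_exponent_ge hb0 hb1 hc1
  have h2 : 0 ≤ (|E - z| + 1 / t) ^ c := Real.rpow_nonneg hb0.le _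
  calc CN * (|E - z| + 1 / t) ^ cN ≤ CN * (|E - z| + 1 / t) ^ c :=
        mul_le_mul_of_nonneg_left h1 hCN.le
    _ ≤ (2 * C0 + CN) * (|E - z| + 1 / t) ^ c :=
        mul_le_mul_of_nonneg_right (by linarith) h2

end Pool.Agent.LE.H93W
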