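import Pool.Agent.Helper93_LEW.AllW
import Pool.Agent.Helper54_LEW.CPF
import Pool.Agent.Helper59_LEW.Cdf
import Pool.Agent.Helper28_LEW.OSCB
import Pool.Agent.Helper42_LEW.NUX
import Pool.Agent.Helper93_LEW.WBE

/-!
# The Lyapunov exponent near the band edge: all modules
-/

set_option autoImplicit false

open MeasureTheory ProbabilityTheory

noncomputable section

namespace Pool.Agent.LE.H93W

open Pool.Agent.Anderson Pool.Agent.Loc Pool.Agent.Helper54.Bal Pool.Agent.Mob
  Pool.Agent.LE.H93C

theorem oscBT : OscBStmt := H28W.oscB trfT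

theorem wbeT : WbeStmt := wbe crtT oscBT (H54W.cpf H59W.cdf) H42W.nux infT

end Pool.Agent.LE.H93W
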