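import Pool.Agent.LE.StmtsW

/-!
# WKD: the Lyapunov exponent at weak disorder
-/

set_option autoImplicit false

open MeasureTheory ProbabilityTheory Function Filter

open scoped ENNReal BigOperators Topology

noncomputable section

namespace Pool.Agent.LE.H93W

open Pool.Agent.Anderson Pool.Agent.Loc Pool.Agent.Mob Pool.Agent.Helper54.Bal

theorem wkd (crt : CrtStmt) (osc : OscStmt) (cpr : CprStmt) (num : NumStmt) (inf : InfStmt) :
    WkdStmt := by
  intro d hd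
  obtain ⟨A, hA, hosc⟩ := osc d hd
  obtain ⟨q, hdq, hnum⟩ := num d A hd hA
  obtain ⟨C', hC', hosc'⟩ := hosc q
  obtain ⟨C, hC, hn⟩ := hnum C' hC'
  refine ⟨2 * C, by linarith, ?_⟩
  intro σ E g hσ hσ1 hE hg
  have hσ0 : 0 < |σ| := abs_pos.2 hσ
  by_contra hcon
  push Not at hcon
  set κ : ℝ := C * |σ| ^ (1 / ((d : ℝ) * (d + 4))) with hκ
  have hκ0 : 0 < κ := by
    have : 0 < |σ| ^ (1 / ((d : ℝ) * (d + 4))) := Real.rpow_pos_of_pos hσ0 _
    have : 0 < C := by linarith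
    positivity
  have hκg : 2 * κ < g := by
    rw [hκ]
    linarith
  obtain ⟨s, M, cs, v, hs, hM, hcs, hv, hv1, hv2, hv3⟩ := hn σ κ hσ hσ1 le_rfl
  have hs0 : (0 : ℝ) < s := by exact_mod_cast (by omega : 0 < s)
  have hcs0 : 0 < cs := by linarith
  have hy0 : 0 < C' * |σ| ^ (-A) * (s : ℝ) ^ (q + d + 1) / (cs * s) ^ q := by
    have : 0 < |σ| ^ (-A) := Real.rpow_pos_of_pos hσ0 _
    positivity
  obtain ⟨L₀, hL₀⟩ := crt d s M q σ E κ cs
    ((8 * (M * s) + 3 : ℝ) ^ d * (4 * Real.exp (-(v / |σ|))))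
    (C' * |σ| ^ (-A) * (s : ℝ) ^ (q + d + 1) / (cs * s) ^ q) hd hσ hs hM hdq hcs hκ0
    (by positivity) hy0 hv3
    (fun N S c hS hSN hc => by
      refine (hosc' σ E N s S c hσ hσ1 hE hs hS hSN hc).trans (ENNReal.ofReal_le_ofReal ?_)
      rw [div_mul_cancel₀ _ (by positivity)])
    (fun N c hc => cpr d s M N σ E v c hd hσ hE hv hv1 hv2 hc)
  obtain ⟨L, N, a, hL, hbox, hP⟩ := inf d σ E g (2 * κ) hd hσ hg (by linarith) hκg L₀
  refine hL₀ L N a hL hbox ?_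
  have e : 2 * κ / 2 = κ := by ring
  rw [e] at hP
  exact hP

end Pool.Agent.LE.H93W
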