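import Pool.Agent.Helper93_LEC.AllC
import Pool.Agent.Helper42_LEF.CDD
import Pool.Agent.Helper54_LEW.VTR
import Pool.Agent.Helper54_LEW.CPR
import Pool.Agent.Helper59_LEW.Trf
import Pool.Agent.Helper3_LEW.CST
import Pool.Agent.Helper28_LEW.OSC
import Pool.Agent.Helper96_LEW.CNT2
import Pool.Agent.Helper77_LEW.INF
import Pool.Agent.Helper15_LEW.NUM
import Pool.Agent.Helper93_LEW.CRT
import Pool.Agent.Helper93_LEW.WKD

/-!
# The Lyapunov exponent at weak disorder: all modules
-/

set_option autoImplicit false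

open MeasureTheory ProbabilityTheory

noncomputable section

namespace Pool.Agent.LE.H93W

open Pool.Agent.Anderson Pool.Agent.Loc Pool.Agent.Helper54.Bal Pool.Agent.Mob
  Pool.Agent.LE.H93C

theorem trfT : TrfStmt := H59W.trf H54W.vtr ufmT

theorem crtT : CrtStmt := crt (H96W.cnt2 H24.dmi) trfT (H76C.reg uchT)

theorem infT : InfStmt := H77W.inf gvuT insT2

theorem wkdT : WkdStmt :=
  wkd crtT (H28W.osc trfT H3W.cst) (H54W.cpr H42F.cdd) H15W.num infT

end Pool.Agent.LE.H93W
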