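import Pool.Agent.LE.StmtsY
import Pool.Agent.Helper93_LEW.WBE

/-!
# QME: the effective band edge
-/

set_option autoImplicit false

open MeasureTheory ProbabilityTheory Function Filter

open scoped ENNReal BigOperators Topology NNReal

noncomputable section

namespace Pool.Agent.LE.H93W

open Pool.Agent.Anderson Pool.Agent.Loc Pool.Agent.Mob Pool.Agent.Helper54.Bal Pool.Agent.BED

/-- decay with a probability tending to one bounds the Lyapunov exponent from below -/
theorem le_of_allGood {d : ℕ} {σ E g m : ℝ} (hg : LyaAt d σ E g)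
    (h : Tendsto (fun M : ℕ => PP d (gl σ) {V | ¬ AllGoodC V 0 M m E}) atTop (𝓝 0)) :
    m ≤ g := by
  by_contra hcon
  push Not at hcon
  have h3 := (hg.2 (m - g) (by linarith only [hcon])).1
  have e2 : g + (m - g) = m := by ring
  rw [e2] at h3
  have h4 : Tendsto (fun M : ℕ => PP d (gl σ) {V | ¬ SG V M m E 0}) atTop (𝓝 0) := by
    refine tendsto_of_tendsto_of_tendsto_of_le_of_le tendsto_const_nhds h
      (fun M => zero_le) (fun M => measure_mono ?_)
    intro V hV hg
    exact hV (hg 0 (by rw [mem_box, sd_self]; exact Nat.zero_le _))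
  have h5 := h3.add h4
  rw [add_zero] at h5
  have h6 : (1 : ℝ≥0∞) ≤ 0 := by
    refine ge_of_tendsto' h5 fun M => ?_
    rw [← measure_univ (μ := PP d (gl σ))]
    refine (measure_mono ?_).trans (measure_union_le _ _)
    intro V _
    by_cases hV : SG V M m E 0
    · exact Or.inl hV
    · exact Or.inr hV
  exact absurd h6 (by norm_num)

/-- `K (1 + log t) ≤ √t` for large `t` -/
theorem log_le_sqrt (K : ℝ) : ∃ T₀ : ℝ, 1 ≤ T₀ ∧ ∀ t : ℝ, T₀ ≤ t →
    K * (1 + Real.log t) ≤ Real.sqrt t := by
  have h1 : Tendsto (fun x : ℝ => x / (1 + 2 * Real.log x)) atTop atTop := by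
    have h2 : Tendsto (fun x : ℝ => (1 + 2 * Real.log x) / x) atTop (𝓝 0) := by
      have h3 : Tendsto (fun x : ℝ => Real.log x / x) atTop (𝓝 0) := by
        have := Real.tendsto_pow_log_div_mul_add_atTop 1 0 1 one_ne_zero
        simpa using this
      have h4 : Tendsto (fun x : ℝ => 1 / x) atTop (𝓝 0) := by
        simpa using tendsto_inv_atTop_zero (𝕜 := ℝ)
      have h5 := h4.add (h3.const_mul 2)
      rw [mul_zero, add_zero] at h5
      refine h5.congr fun x => ?_
      ring
    have h6 : Tendsto (fun x : ℝ => (1 + 2 * Real.log x) / x) atTop (𝓝[>] 0) := by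
      refine tendsto_nhdsWithin_iff.2 ⟨h2, ?_⟩
      filter_upwards [eventually_ge_atTop (1 : ℝ)] with x hx
      have := Real.log_nonneg hx
      have : 0 < x := by linarith only [hx]
      exact div_pos (by linarith) this
    have h7 := h6.inv_tendsto_nhdsGT_zero
    refine h7.congr fun x => ?_
    simp only [Pi.inv_apply, inv_div]
  obtain ⟨X, hX⟩ := eventually_atTop.1 (h1.eventually_ge_atTop K)
  refine ⟨max 1 (max X 1 ^ 2), le_max_left _ _, fun t ht => ?_⟩
  have ht1 : 1 ≤ t := (le_max_left _ _).trans ht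
  have ht0 : 0 ≤ t := by linarith only [ht1]
  have h2 : max X 1 ≤ Real.sqrt t :=
    Real.le_sqrt_of_sq_le ((le_max_right _ _).trans ht)
  have h3 := hX (Real.sqrt t) ((le_max_left _ _).trans h2)
  have h4 : Real.log (Real.sqrt t) = Real.log t / 2 := Real.log_sqrt ht0
  have h5 : 0 ≤ Real.log t := Real.log_nonneg ht1
  rw [h4, le_div_iff₀ (by linarith only [h5])] at h3
  have e : 1 + 2 * (Real.log t / 2) = 1 + Real.log t := by ring
  rwa [e] at h3

theorem qme (crt : CrtStmt) (osc : OscBStmt) (nux : NuxStmt) (inf : InfStmt) (sge : SgeStmt)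
    (smx : SmxStmt) (fpx : FpxStmt) : QmeStmt := by
  intro d hd3
  have hd : 1 ≤ d := by omega
  have hdR : (1 : ℝ) ≤ d := by exact_mod_cast hd
  obtain ⟨c0, C0, C1, hc0, hC0, hC1, hcpf⟩ := fpx d hd3
  obtain ⟨cN, CN, hcN, hcN4, hCN, hcore⟩ := wbeZ crt osc nux inf hd hC1
  obtain ⟨A, p₀, hA, hp₀, hsmx⟩ := smx d hd
  obtain ⟨T₀, hT₀, hlogT⟩ := log_le_sqrt (128 * d * (A * (1 + Real.log (8 * d) + 3) +
    (1 + Real.log 8) + 3))
  obtain ⟨c, hcdef⟩ : ∃ c : ℝ, c = min (min (min cN (c0 / (d + 5))) (min (1 / (16 * d)) p₀))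
    (min (min (1 / (C0 * 3 ^ d + 16)) (1 / (4 * C0 + 1))) (1 / T₀)) := ⟨_, rfl⟩
  have hT₀0 : 0 < T₀ := by linarith only [hT₀]
  have hc : 0 < c := by rw [hcdef]; positivity
  have hc1 : c ≤ cN := by
    rw [hcdef]; exact (min_le_left _ _).trans ((min_le_left _ _).trans (min_le_left _ _))
  have hc2 : c * (d + 5) ≤ c0 := by
    have : c ≤ c0 / (d + 5) := by
      rw [hcdef]; exact (min_le_left _ _).trans ((min_le_left _ _).trans (min_le_right _ _))
    rwa [le_div_iff₀ (by positivity)] at this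
  have hc16 : c ≤ 1 / (16 * d) := by
    rw [hcdef]; exact (min_le_left _ _).trans ((min_le_right _ _).trans (min_le_left _ _))
  have hcp : c ≤ p₀ := by
    rw [hcdef]; exact (min_le_left _ _).trans ((min_le_right _ _).trans (min_le_right _ _))
  have hc4 : (C0 * 3 ^ d + 16) * c ≤ 1 := by
    have : c ≤ 1 / (C0 * 3 ^ d + 16) := by
      rw [hcdef]; exact (min_le_right _ _).trans ((min_le_left _ _).trans (min_le_left _ _))
    rw [le_div_iff₀ (by positivity)] at this
    linarith only [this]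
  have hc5 : (4 * C0 + 1) * c ≤ 1 := by
    have : c ≤ 1 / (4 * C0 + 1) := by
      rw [hcdef]; exact (min_le_right _ _).trans ((min_le_left _ _).trans (min_le_right _ _))
    rw [le_div_iff₀ (by positivity)] at this
    linarith only [this]
  have hc7 : T₀ * c ≤ 1 := by
    have : c ≤ 1 / T₀ := by
      rw [hcdef]; exact (min_le_right _ _).trans (min_le_right _ _)
    rw [le_div_iff₀ (by positivity)] at this
    linarith only [this]
  have hc6 : c ≤ 1 / 4 := hc1.trans hcN4
  refine ⟨c, 2 * C0 + CN, hc, by positivity, ?_⟩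
  intro σ t hσ hσc hσt hu
  have hσ0 : 0 < |σ| := abs_pos.2 hσ
  have hσ1 : |σ| ≤ 1 := by linarith only [hσc, hc1, hcN4]
  have ht1c : 1 / c ≤ t := (one_div_le_one_div_of_le hσ0 hσc).trans hσt
  have hct : 1 ≤ c * t := by
    rw [div_le_iff₀ hc] at ht1c
    linarith only [ht1c]
  have ht0 : 0 < t := lt_of_lt_of_le (by positivity) hσt
  have hbig : ∀ B : ℝ, 0 ≤ B → B * c ≤ 1 → B ≤ t := by
    intro B hB hBc
    have h1 : (B * c) * t ≤ 1 * t := mul_le_mul_of_nonneg_right hBc ht0.le
    have h2 : B * 1 ≤ B * (c * t) := mul_le_mul_of_nonneg_left hct hB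
    linarith only [h2, h1]
  have htb : C0 * 3 ^ d + 16 ≤ t := hbig _ (by positivity) hc4
  have htT : T₀ ≤ t := hbig _ (by positivity) hc7
  have hC3 : 0 < C0 * 3 ^ d := by positivity
  have ht16 : 16 ≤ t := by linarith only [hC3, htb]
  have htt : t * 16 ≤ t * t := mul_le_mul_of_nonneg_left ht16 ht0.le
  obtain ⟨M', hM'⟩ : ∃ M' : ℕ, M' = ⌈t⌉₊ + 10 := ⟨_, rfl⟩
  have hM1 : t + 2 ≤ M' := by
    rw [hM']
    push_cast
    have := Nat.le_ceil t
    linarith only [this]
  have hM2 : (M' : ℝ) ≤ 3 * t := by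
    rw [hM']
    push_cast
    have := Nat.ceil_lt_add_one ht0.le
    linarith only [this, hC3, htb]
  obtain ⟨p, hp⟩ : ∃ p : ℝ, p = C0 * (1 + Real.log t) * (M' : ℝ) ^ d *
    Real.exp (-c0 / (σ ^ 2 * growth d t)) := ⟨_, rfl⟩
  have hM0 : (0 : ℝ) < M' := by linarith only [hM1, ht0]
  have hlog : 0 ≤ Real.log t := Real.log_nonneg (by linarith only [htT, hT₀])
  have hp0 : 0 < p := by rw [hp]; positivity
  have hpt : p ≤ 1 / t ^ 2 := by
    rw [hp]
    refine p_le hd3 hc0 hC0 hc hσ (by linarith only [hC3, htb]) hc2 hM2 hu ?_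
    rw [pow_two]
    linarith only [htt, htb, ht0]
  have hpt1 : p ≤ 1 / t := by
    refine hpt.trans (one_div_le_one_div_of_le ht0 ?_)
    rw [pow_two]
    linarith only [htt, ht0]
  have hp2 : p ≤ 1 / 2 := hpt1.trans (one_div_le_one_div_of_le (by norm_num) (by linarith only [hC3, htb]))
  have hsq : Real.sqrt p ≤ 1 / t := by
    rw [Real.sqrt_le_left (by positivity)]
    refine hpt.trans (le_of_eq ?_)
    rw [div_pow, one_pow]
  have hM3 : 3 ≤ M' := by omega
  have h1tc : 1 / t ≤ c := by
    rw [div_le_iff₀ ht0]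
    linarith only [hct]
  obtain ⟨v, hv⟩ : ∃ v : ℝ≥0, (v : ℝ) = σ ^ 2 := ⟨⟨σ ^ 2, sq_nonneg σ⟩, rfl⟩
  obtain ⟨z, μ, hz, hz3, hμ, hflat, hcond⟩ := hcpf M' v σ t p hσ hσ1 hv hM3 (by linarith only [htT, hT₀])
    (by linarith only [hM1]) hp hp2
  have h1t : 1 / t ≤ |σ| := by
    rw [div_le_iff₀ ht0]
    rw [div_le_iff₀ hσ0] at hσt
    linarith only [hσt]
  have hσsq : σ ^ 2 ≤ |σ| := by
    rw [← sq_abs, pow_two]
    have := mul_le_mul_of_nonneg_left hσ1 hσ0.le
    linarith only [this]
  have hσsq0 := sq_nonneg σ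
  have h1t0 : 0 < 1 / t := by positivity
  have hz2 : |z - 2 * d| ≤ 2 * C0 * (σ ^ 2 + 1 / t) := by
    refine hz.trans ?_
    have h1 : σ ^ 2 + 1 / t + Real.sqrt p ≤ 2 * (σ ^ 2 + 1 / t) := by linarith only [hv, hsq]
    have := mul_le_mul_of_nonneg_left h1 hC0.le
    linarith only [this]
  have hz1 : |z| ≤ 2 * d + 1 := by
    have h1 : |z - 2 * d| ≤ 1 := by
      refine hz2.trans ?_
      have h3 : σ ^ 2 + 1 / t ≤ 2 * c := by linarith only [hσsq, h1tc, hσc]
      calc 2 * C0 * (σ ^ 2 + 1 / t) ≤ 2 * C0 * (2 * c) :=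
            mul_le_mul_of_nonneg_left h3 (by positivity)
        _ ≤ 1 := by linarith only [hc5, hc]
    have h2 := abs_add_le (z - 2 * d) (2 * d)
    rw [sub_add_cancel, abs_of_nonneg (by positivity : (0 : ℝ) ≤ 2 * d)] at h2
    linarith only [h2, h1]
  refine ⟨z, ?_, ?_, ?_⟩
  · refine hz2.trans ?_
    have h0 : 0 ≤ σ ^ 2 + 1 / t := by positivity
    exact mul_le_mul_of_nonneg_right (by linarith only [hCN]) h0
  · -- localization above the edge
    intro E g hE hg
    haveI : NeZero M' := ⟨by omega⟩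
    obtain ⟨δ, hδ⟩ : ∃ δ : ℝ, δ = min (E - z) 1 := ⟨_, rfl⟩
    have hδt : 1 / t ≤ δ := by
      rw [hδ]
      refine le_min (by linarith only [hE]) ?_
      rw [div_le_iff₀ ht0]
      linarith only [htT, hT₀]
    have hδ0 : 0 < δ := by linarith only [hδt, hpt1, hp0]
    have hδ1 : δ ≤ 1 := by rw [hδ]; exact min_le_right _ _
    have hδE : z + δ ≤ E := by
      have : δ ≤ E - z := by rw [hδ]; exact min_le_left _ _
      linarith only [this]
    obtain ⟨L, hL⟩ : ∃ L : ℕ, L = ⌊t / 8⌋₊ := ⟨_, rfl⟩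
    have hL8 : (L : ℝ) ≤ t / 8 := by rw [hL]; exact Nat.floor_le (by positivity)
    have hL16 : t / 16 ≤ L := by
      have : t / 8 < L + 1 := by rw [hL]; exact Nat.lt_floor_add_one _
      linarith only [this, hC3, htb]
    have hL1 : 1 ≤ L := by
      have h1 : (0 : ℝ) < L := by linarith only [hL16, ht0]
      have h2 : 0 < L := by exact_mod_cast h1
      exact h2
    have hL1R : (1 : ℝ) ≤ L := by exact_mod_cast hL1
    have hLM : 8 * L + 3 ≤ M' := by
      have h1 : ((8 * L : ℕ) : ℝ) ≤ (⌈t⌉₊ : ℕ) := by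
        push_cast
        have := Nat.le_ceil t
        linarith only [this, hL8]
      have h2 : 8 * L ≤ ⌈t⌉₊ := by exact_mod_cast h1
      omega
    have hst0 : 0 < Real.sqrt t := Real.sqrt_pos.2 ht0
    have hst : Real.sqrt t * Real.sqrt t = t := Real.mul_self_sqrt ht0.le
    have hsδ : 1 / Real.sqrt t ≤ Real.sqrt δ := by
      have h1 := Real.sqrt_le_sqrt hδt
      rwa [Real.sqrt_div zero_le_one, Real.sqrt_one] at h1
    have hsδ0 : 0 < Real.sqrt δ := Real.sqrt_pos.2 hδ0
    have hsδ1 : Real.sqrt δ ≤ 1 := by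
      rw [← Real.sqrt_one]
      exact Real.sqrt_le_sqrt hδ1
    have hsδL : Real.sqrt t / 16 ≤ Real.sqrt δ * L := by
      calc Real.sqrt t / 16 = (t / Real.sqrt t) / 16 := by rw [Real.div_sqrt]
        _ = 1 / Real.sqrt t * (t / 16) := by ring
        _ ≤ Real.sqrt δ * L := mul_le_mul hsδ hL16 (by positivity) hsδ0.le
    have hlogK := hlogT t htT
    have hlog8 : 0 ≤ Real.log 8 := Real.log_nonneg (by norm_num)
    have hlog8d : 0 ≤ Real.log (8 * d) := Real.log_nonneg (by linarith only [hdR])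
    have hlt : 0 ≤ 1 + Real.log t := by linarith only [hlog]
    have hX1 : 0 ≤ A * (1 + Real.log (8 * d) + 3) := by positivity
    have hX2 : (1 + Real.log 8) + 3 ≥ 0 := by positivity
    have hsplit : 128 * d * (A * (1 + Real.log (8 * d) + 3)) * (1 + Real.log t) ≤ Real.sqrt t ∧
        128 * d * ((1 + Real.log 8) + 3) * (1 + Real.log t) ≤ Real.sqrt t := by
      constructor
      · refine le_trans ?_ hlogK
        refine mul_le_mul_of_nonneg_right ?_ hlt
        refine mul_le_mul_of_nonneg_left ?_ (by positivity)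
        linarith only [hlog8]
      · refine le_trans ?_ hlogK
        refine mul_le_mul_of_nonneg_right ?_ hlt
        refine mul_le_mul_of_nonneg_left ?_ (by positivity)
        linarith only [hX1]
    have hcondA : 8 * d * Real.log (8 / δ) ≤ Real.sqrt δ * L := by
      refine le_trans ?_ hsδL
      have h1 : Real.log (8 / δ) ≤ (1 + Real.log 8 + 3) * (1 + Real.log t) := by
        have h2 : 8 / δ ≤ 8 * t := by
          rw [div_le_iff₀ hδ0]
          rw [div_le_iff₀ ht0] at hδt
          linarith only [hδt]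
        have h3 : Real.log (8 / δ) ≤ Real.log 8 + Real.log t := by
          rw [← Real.log_mul (by norm_num) ht0.ne']
          exact Real.log_le_log (by positivity) h2
        have h4 : 0 ≤ Real.log 8 * Real.log t := by positivity
        linarith only [h4, h3, hlog]
      have h5 : 8 * d * Real.log (8 / δ) ≤
          8 * d * ((1 + Real.log 8 + 3) * (1 + Real.log t)) :=
        mul_le_mul_of_nonneg_left h1 (by positivity)
      linarith only [h5, hsplit.2]
    obtain ⟨m, hm⟩ : ∃ m : ℝ, m = Real.sqrt δ / (8 * d) := ⟨_, rfl⟩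
    have hm0 : 0 < m := by rw [hm]; positivity
    have hm1 : m ≤ 1 := by
      rw [hm, div_le_one (by positivity)]
      linarith only [hsδ1, hdR]
    have hcondB : A * (1 + Real.log (L / (|σ| * m))) ≤ m * L := by
      have h1 : (L : ℝ) / (|σ| * m) ≤ 8 * d * t ^ 3 := by
        rw [div_le_iff₀ (by positivity)]
        have h2 : 1 ≤ |σ| * t := by
          rw [div_le_iff₀ hσ0] at hσt
          linarith only [hσt]
        have h3 : 1 ≤ 8 * d * m * t := by
          have h4 : 8 * d * m = Real.sqrt δ := by rw [hm]; field_simp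
          rw [h4]
          have h5 : 1 ≤ Real.sqrt t := by
            rw [← Real.sqrt_one]
            exact Real.sqrt_le_sqrt (by linarith only [htT, hT₀])
          calc (1 : ℝ) ≤ Real.sqrt t := h5
            _ = 1 / Real.sqrt t * t := by
                rw [div_mul_eq_mul_div, one_mul, eq_div_iff hst0.ne']
                exact hst
            _ ≤ Real.sqrt δ * t := mul_le_mul_of_nonneg_right hsδ ht0.le
        calc (L : ℝ) ≤ t := by linarith only [hL8]
          _ = 1 * 1 * t := by ring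
          _ ≤ (|σ| * t) * (8 * d * m * t) * t := by
              refine mul_le_mul_of_nonneg_right ?_ ht0.le
              exact mul_le_mul h2 h3 zero_le_one (by positivity)
          _ = 8 * d * t ^ 3 * (|σ| * m) := by ring
      have h2 : Real.log (L / (|σ| * m)) ≤ Real.log (8 * d) + 3 * Real.log t := by
        have h3 : Real.log (8 * d * t ^ 3) = Real.log (8 * d) + 3 * Real.log t := by
          rw [Real.log_mul (by positivity) (by positivity), Real.log_pow]
          norm_num
        rw [← h3]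
        exact Real.log_le_log (by positivity) h1
      have h3 : 1 + Real.log (L / (|σ| * m)) ≤ (1 + Real.log (8 * d) + 3) * (1 + Real.log t) := by
        have h4 : 0 ≤ Real.log (8 * d) * Real.log t := by positivity
        linarith only [h4, h2, hlog]
      have h4 : Real.sqrt t / (128 * d) ≤ m * L := by
        have h5 : m * L = (Real.sqrt δ * L) / (8 * d) := by rw [hm]; ring
        rw [h5]
        have h6 : Real.sqrt t / (128 * d) = (Real.sqrt t / 16) / (8 * d) := by
          rw [div_div]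
          congr 1
          ring
        rw [h6]
        exact div_le_div_of_nonneg_right hsδL (by positivity)
      refine le_trans ?_ h4
      rw [le_div_iff₀ (by positivity)]
      have h5 : A * (1 + Real.log (L / (|σ| * m))) ≤
          A * ((1 + Real.log (8 * d) + 3) * (1 + Real.log t)) :=
        mul_le_mul_of_nonneg_left h3 (by linarith only [hA])
      have h6 : A * (1 + Real.log (L / (|σ| * m))) * (128 * d) ≤
          A * ((1 + Real.log (8 * d) + 3) * (1 + Real.log t)) * (128 * d) :=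
        mul_le_mul_of_nonneg_right h5 (by positivity)
      linarith only [h6, hsplit.1]
    have hS := sge d M' L v σ z μ E δ p hd hσ hv hμ hz3 (hflat inferInstance) hδ0 hδ1 hδE hL1
      hLM hcondA
    rw [← hm] at hS
    have hpp : p ≤ p₀ := hpt1.trans (h1tc.trans hcp)
    have hlim := hsmx σ E m L hσ hσ1 hm0 hm1 hL1 hcondB
      (hS.trans (ENNReal.ofReal_le_ofReal hpp))
    have hfin := le_of_allGood hg hlim
    refine le_trans ?_ hfin
    rw [← hδ, hm]
    have h1 : c * Real.sqrt δ ≤ 1 / (16 * d) * Real.sqrt δ :=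
      mul_le_mul_of_nonneg_right hc16 hsδ0.le
    refine h1.trans (le_of_eq ?_)
    field_simp
    norm_num
  · intro E g hE hg
    refine (hcore M' σ t p z hσ (hσc.trans hc1) hσt hM1 hp0 hpt1 hz1 hcond E g hE hg).trans ?_
    have hb0 : 0 < |E - z| + 1 / t := by
      have := abs_nonneg (E - z)
      linarith only [this, hpt1, hp0]
    have hb1 : |E - z| + 1 / t ≤ 1 := by linarith only [hE, h1tc, hσc, hc1, hcN4]
    have h1 : (|E - z| + 1 / t) ^ cN ≤ (|E - z| + 1 / t) ^ c :=
      Real.rpow_le_rpow_of_exponent_ge hb0 hb1 hc1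
    have h2 : 0 ≤ (|E - z| + 1 / t) ^ c := Real.rpow_nonneg hb0.le _
    calc CN * (|E - z| + 1 / t) ^ cN ≤ CN * (|E - z| + 1 / t) ^ c :=
          mul_le_mul_of_nonneg_left h1 hCN.le
      _ ≤ (2 * C0 + CN) * (|E - z| + 1 / t) ^ c :=
          mul_le_mul_of_nonneg_right (by linarith only [hC0]) h2

end Pool.Agent.LE.H93W
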