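import Pool.Agent.Helper93_LEW.AllX
import Pool.Agent.Helper93_LEW.QME
import Pool.Agent.Helper93_LEW.Edge
import Pool.Agent.Helper28_LEW.SGE
import Pool.Agent.Helper15_LEW.SMX
import Pool.Agent.Helper54_LEW.FPX

/-!
# The effective band edge: all modules
-/

set_option autoImplicit false

open MeasureTheory ProbabilityTheory

noncomputable section

namespace Pool.Agent.LE.H93W

open Pool.Agent.Anderson Pool.Agent.Loc Pool.Agent.Helper54.Bal Pool.Agent.Mob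
  Pool.Agent.LE.H93C Pool.Agent.BED

theorem qmeT : QmeStmt :=
  qme crtT oscBT H42W.nux infT H28W.sge (H15X.smx H96.smpT) (H54W.fpx H59W.cdf)

theorem edgeT : ∀ d : ℕ, 3 ≤ d → ∃ c C : ℝ, 0 < c ∧ 0 < C ∧
    ∀ σ t : ℝ, σ ≠ 0 → |σ| ≤ c → 1 / σ ^ 2 ≤ t → σ ^ 2 * growth d t * Real.log t ≤ c →
    ∃ Es : ℝ, |Es - 2 * d| ≤ C * σ ^ 2 ∧
      (∀ E g : ℝ, Es + 1 / t ≤ |E| → LyaAt d σ E g → c * Real.sqrt (min (|E| - Es) 1) ≤ g) ∧
      (∀ E g : ℝ, |(|E| - Es)| ≤ |σ| → LyaAt d σ E g → g ≤ C * (|(|E| - Es)| + 1 / t) ^ c) ∧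
      ∀ E g : ℝ, |E| ≤ Es → LyaAt d σ E g → g ≤ C * |σ| ^ c :=
  edge_full qmeT wkdT

end Pool.Agent.LE.H93W
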