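import Pool.Agent.LE.StmtsW
import Pool.Agent.Helper93_LEC.BESa

/-!
# CRT: the criterion, lemmas
-/

set_option autoImplicit false
set_option linter.unusedSectionVars false

open MeasureTheory ProbabilityTheory Function Filter

open scoped ENNReal BigOperators Topology

noncomputable section

namespace Pool.Agent.LE.H93W

open Pool.Agent.Anderson Pool.Agent.Loc Pool.Agent.Mob Pool.Agent.Helper54.Bal
  Pool.Agent.LE.H93C

variable {d : ℕ}

theorem measurable_gmax (Λ : Finset (Site d)) (E : ℝ) (S : Finset (Site d)) (x : Site d) :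
    Measurable fun V : Site d → ℝ => gmax V Λ E S x := by
  classical
  unfold gmax
  refine Measurable.coe_nnreal_real ?_
  induction S using Finset.induction_on with
  | empty => simp
  | insert z S hz ih =>
    simp only [Finset.sup_insert]
    exact (measurable_gr Λ E z x).nnnorm.sup ih

theorem measurable_FD (Λ : Finset (Site d)) (E : ℝ) (S : Finset (Site d)) (x : Site d) :
    Measurable fun V : Site d → ℝ => FD V Λ E S x := by
  unfold FD
  exact (Real.measurable_log.comp (measurable_gmax Λ E S x)).neg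

theorem measurable_osc (N : ℕ) (E : ℝ) (S : Finset (Site d)) (c : Site d) (s : ℕ) :
    Measurable fun V : Site d → ℝ => osc V N E S c s := by
  unfold osc
  refine Pool.Agent.LY.measurable_fsup _ fun x => ?_
  exact (((measurable_FD (box 0 N) E S x).sub (measurable_FD (box 0 N) E S c)).abs).ennreal_ofReal

theorem osc_ne_top (V : Site d → ℝ) (N : ℕ) (E : ℝ) (S : Finset (Site d)) (c : Site d) (s : ℕ) :
    osc V N E S c s ≠ ∞ := by
  unfold osc
  refine ne_of_lt ?_
  rw [Finset.sup_lt_iff (by simp)]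
  exact fun x _ => ENNReal.ofReal_lt_top

theorem le_osc (V : Site d → ℝ) (N : ℕ) (E : ℝ) (S : Finset (Site d)) {c x : Site d} {s : ℕ}
    (hx : x ∈ box c s) :
    |FD V (box 0 N) E S x - FD V (box 0 N) E S c| ≤ (osc V N E S c s).toReal := by
  have h1 : ENNReal.ofReal |FD V (box 0 N) E S x - FD V (box 0 N) E S c| ≤ osc V N E S c s :=
    Finset.le_sup (f := fun x => ENNReal.ofReal |FD V (box 0 N) E S x - FD V (box 0 N) E S c|) hx
  have h2 := ENNReal.toReal_mono (osc_ne_top V N E S c s) h1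
  rwa [ENNReal.toReal_ofReal (abs_nonneg _)] at h2

theorem FD_le {V : Site d → ℝ} {Λ : Finset (Site d)} {E : ℝ} {S : Finset (Site d)}
    {x z : Site d} (hz : z ∈ S) (h0 : gr V Λ E z x ≠ 0) : FD V Λ E S x ≤ DL Λ E V z x := by
  have h1 : ‖gr V Λ E z x‖₊ ≤ S.sup fun z => ‖gr V Λ E z x‖₊ :=
    Finset.le_sup (f := fun z => ‖gr V Λ E z x‖₊) hz
  have h2 : |gr V Λ E z x| ≤ gmax V Λ E S x := by
    unfold gmax
    rw [← Real.norm_eq_abs, ← coe_nnnorm]
    exact_mod_cast h1
  unfold FD DL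
  exact neg_le_neg (Real.log_le_log (abs_pos.2 h0) h2)

theorem le_FD {V : Site d → ℝ} {Λ : Finset (Site d)} {E h : ℝ} {S : Finset (Site d)}
    {x : Site d} (hS : S.Nonempty) (hz : ∀ z ∈ S, h ≤ DL Λ E V z x) : h ≤ FD V Λ E S x := by
  obtain ⟨z, hzS, e⟩ := Finset.exists_mem_eq_sup S hS fun z => ‖gr V Λ E z x‖₊
  refine (hz z hzS).trans (le_of_eq ?_)
  unfold DL FD gmax
  rw [e, coe_nnnorm, Real.norm_eq_abs]

/-- the mesh points of the face `k_i = -n` -/
def face (a : Site d) (s n : ℕ) (i : Fin d) : Finset (Site d) :=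
  open Classical in
  ((box (0 : Site d) n).filter fun k => k i = -(n : ℤ)).image fun k => a + sm s k

theorem face_nonempty (a : Site d) (s n : ℕ) (i : Fin d) : (face a s n i).Nonempty := by
  classical
  unfold face
  rw [Finset.image_nonempty]
  refine ⟨fun _ => -(n : ℤ), ?_⟩
  rw [Finset.mem_filter, mem_box, sd_le_iff]
  refine ⟨fun j => ?_, rfl⟩
  simp

theorem mem_face {a : Site d} {s n : ℕ} {i : Fin d} {k : Site d} (hk : k ∈ box (0 : Site d) n)
    (hi : k i = -(n : ℤ)) : a + sm s k ∈ face a s n i := by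
  classical
  unfold face
  exact Finset.mem_image_of_mem _ (Finset.mem_filter.2 ⟨hk, hi⟩)

theorem exists_of_mem_face {a z : Site d} {s n : ℕ} {i : Fin d} (h : z ∈ face a s n i) :
    ∃ k ∈ box (0 : Site d) n, k i = -(n : ℤ) ∧ a + sm s k = z := by
  classical
  unfold face at h
  obtain ⟨k, hk, e⟩ := Finset.mem_image.1 h
  rw [Finset.mem_filter] at hk
  exact ⟨k, hk.1, hk.2, e⟩

/-- the bad event at the site `c` -/
def BadE (V : Site d → ℝ) (N M s : ℕ) (E : ℝ) (S : Fin d → Finset (Site d)) (c : Site d) : Prop :=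
  (¬ ∀ j : ℕ, 1 ≤ j → j ≤ M → ∃ y : Site d,
    (sd c y = 4 * j * s ∨ sd c y = 4 * j * s + 1) ∧ DL (box 0 N) E V c y ≤ s / 2) ∨
  ∃ i : Fin d, ∃ y ∈ box c (4 * (M * s) + 1),
    ¬ |FD V (box 0 N) E (S i) c - FD V (box 0 N) E (S i) y| ≤ DL (box 0 N) E V c y + s / 2

theorem prob_BadE (trf : TrfStmt) {N M s : ℕ} {σ E p : ℝ} {S : Fin d → Finset (Site d)}
    {c : Site d} (hd : 1 ≤ d) (hσ : σ ≠ 0) (hp : 0 ≤ p)
    (hS : ∀ i, (S i).Nonempty) (hS' : ∀ i, S i ⊆ box 0 N)
    (hc : box c (4 * (M * s) + 2) ⊆ box 0 N)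
    (hcond : PP d (gl σ) {V | ¬ ∀ j : ℕ, 1 ≤ j → j ≤ M → ∃ y : Site d,
        (sd c y = 4 * j * s ∨ sd c y = 4 * j * s + 1) ∧ DL (box 0 N) E V c y ≤ s / 2} ≤
          ENNReal.ofReal p) :
    PP d (gl σ) {V | BadE V N M s E S c} ≤
      ENNReal.ofReal (p + d * (8 * (M * s) + 5) ^ d * (16 / |σ| * Real.exp (-(s / 2 : ℝ)))) := by
  classical
  have hσ0 : 0 < |σ| := abs_pos.2 hσ
  have hcN : c ∈ box (0 : Site d) N := hc (by rw [mem_box, sd_self]; exact Nat.zero_le _)
  have hsub : {V | BadE V N M s E S c} ⊆ {V | ¬ ∀ j : ℕ, 1 ≤ j → j ≤ M → ∃ y : Site d,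
        (sd c y = 4 * j * s ∨ sd c y = 4 * j * s + 1) ∧ DL (box 0 N) E V c y ≤ s / 2} ∪
      ⋃ i ∈ (Finset.univ : Finset (Fin d)), ⋃ y ∈ box c (4 * (M * s) + 1),
        {V | ¬ |FD V (box 0 N) E (S i) c - FD V (box 0 N) E (S i) y| ≤
          DL (box 0 N) E V c y + s / 2} := by
    rintro V (h | ⟨i, y, hy, h⟩)
    · exact Or.inl h
    · right
      simp only [Set.mem_iUnion]
      exact ⟨i, Finset.mem_univ i, y, hy, h⟩
  refine (measure_mono hsub).trans ((measure_union_le _ _).trans ?_)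
  have hpos : 0 ≤ 16 / |σ| * Real.exp (-(s / 2 : ℝ)) := by positivity
  rw [ENNReal.ofReal_add hp (by positivity)]
  refine add_le_add hcond ?_
  calc PP d (gl σ) (⋃ i ∈ (Finset.univ : Finset (Fin d)), ⋃ y ∈ box c (4 * (M * s) + 1),
        {V | ¬ |FD V (box 0 N) E (S i) c - FD V (box 0 N) E (S i) y| ≤
          DL (box 0 N) E V c y + s / 2})
      ≤ ∑ i ∈ (Finset.univ : Finset (Fin d)), ∑ y ∈ box c (4 * (M * s) + 1),
          ENNReal.ofReal (16 / |σ| * Real.exp (-(s / 2 : ℝ))) := by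
        refine (measure_biUnion_finset_le _ _).trans (Finset.sum_le_sum fun i _ => ?_)
        refine (measure_biUnion_finset_le _ _).trans (Finset.sum_le_sum fun y hy => ?_)
        exact trf d N σ E (s / 2) (S i) c y hd hσ (hS i) (hS' i) hcN
          (hc (by rw [mem_box] at hy ⊢; omega))
    _ = ENNReal.ofReal (d * (8 * (M * s) + 3) ^ d *
          (16 / |σ| * Real.exp (-(s / 2 : ℝ)))) := by
        rw [Finset.sum_const, Finset.sum_const, card_box, Finset.card_univ, Fintype.card_fin,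
          nsmul_eq_mul, nsmul_eq_mul, ← ENNReal.ofReal_natCast, ← ENNReal.ofReal_natCast,
          ← ENNReal.ofReal_mul (by positivity), ← ENNReal.ofReal_mul (by positivity)]
        congr 1
        push_cast
        ring
    _ ≤ _ := by
        apply ENNReal.ofReal_le_ofReal
        gcongr
        norm_num

theorem good_of_not_bad {V : Site d → ℝ} {N M s : ℕ} {E : ℝ} {S : Fin d → Finset (Site d)}
    {c : Site d} (h : ¬ BadE V N M s E S c) : ∀ j : ℕ, 1 ≤ j → j ≤ M → ∃ v : Site d,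
      (sd c v = 4 * j * s ∨ sd c v = 4 * j * s + 1) ∧
        ∀ i, |FD V (box 0 N) E (S i) v - FD V (box 0 N) E (S i) c| ≤ s := by
  unfold BadE at h
  push Not at h
  obtain ⟨h1, h2⟩ := h
  intro j hj hjM
  obtain ⟨y, hy, hD⟩ := h1 j hj hjM
  refine ⟨y, hy, fun i => ?_⟩
  have hjs : 4 * j * s ≤ 4 * (M * s) := by
    have : j * s ≤ M * s := Nat.mul_le_mul_right _ hjM
    have e1 : 4 * j * s = 4 * (j * s) := by ring
    omega
  have h3 := h2 i y (by rw [mem_box]; omega)
  rw [abs_sub_comm] at h3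
  linarith

/-- the numbers of the mesh -/
theorem mesh2 {L M s n : ℕ} (hn : n = L / s) (hs1 : 1 ≤ s) (hL : s * (8 * M + 8) ≤ L) :
    s * n ≤ L ∧ L + 1 ≤ s * (n + 1) ∧ 8 * M + 8 ≤ n ∧ s * (n + 4 * M + 3) ≤ 2 * L ∧
      4 * (M * s) + 4 * s ≤ L := by
  have h2 : s * n ≤ L := by
    rw [hn, mul_comm]
    exact Nat.div_mul_le_self _ _
  have h3 : L < s * (n + 1) := by
    rw [hn]
    exact Nat.lt_mul_div_succ L (by omega)
  have h4 : 8 * M + 8 ≤ n := by
    rw [hn, Nat.le_div_iff_mul_le (by omega)]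
    have : (8 * M + 8) * s = s * (8 * M + 8) := by ring
    omega
  have e1 : s * (n + 4 * M + 3) = s * n + s * (4 * M + 3) := by ring
  have e2 : s * (8 * M + 8) = s * (4 * M + 3) + (4 * (M * s) + 5 * s) := by ring
  have e3 : s * (8 * M + 8) = 4 * (M * s) + 4 * s + (4 * (M * s) + 4 * s) := by ring
  refine ⟨h2, by omega, h4, by omega, by omega⟩

theorem indicator_sum_card {Ω : Type*} (T : Finset (Site d)) (B : Site d → Set Ω) (ω : Ω) :
    (∑ k ∈ T, Set.indicator (B k) 1 ω : ℝ≥0∞) =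
      ((open Classical in T.filter fun k => ω ∈ B k).card : ℝ≥0∞) := by
  classical
  rw [Finset.card_filter]
  push_cast
  refine Finset.sum_congr rfl fun k _ => ?_
  by_cases h : ω ∈ B k
  · rw [Set.indicator_of_mem h, if_pos h, Pi.one_apply]
  · rw [Set.indicator_of_notMem h, if_neg h]

end Pool.Agent.LE.H93W
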